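import Pool.Agent.Helper33.TB.Goals

set_option autoImplicit false

open Finset

namespace Pool.Agent.Helper69.TB

open Pool.Agent.Helper33.TB

theorem nxd (hP : Pool.Agent.Helper33.TB.StmtPER) : Pool.Agent.Helper33.TB.StmtNX := by
  intro Q X hX
  have hne : ∀ t : ℤ, {h : ℕ | 1 ≤ h ∧ X (t + h) = 1}.Nonempty := by
    intro t
    obtain ⟨t0, ht0⟩ := hX.ne
    have hQ : (1 : ℤ) ≤ Q := by exact_mod_cast hX.pos
    have h1 : 1 ≤ t0 - t + (|t0 - t| + 1) * Q := by
      have h2 := neg_abs_le (t0 - t)
      have h3 := abs_nonneg (t0 - t)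
      nlinarith
    refine ⟨(t0 - t + (|t0 - t| + 1) * Q).toNat, ?_, ?_⟩
    · omega
    · rw [Int.toNat_of_nonneg (by omega)]
      have e : t + (t0 - t + (|t0 - t| + 1) * Q) = t0 + (|t0 - t| + 1) * Q := by ring
      rw [e, hP.per_int Q X hX.per]
      exact ht0
  have hmem : ∀ t : ℤ, 1 ≤ nd X t ∧ X (t + nd X t) = 1 := fun t => Nat.sInf_mem (hne t)
  have hlt : ∀ (t : ℤ) (h : ℕ), 1 ≤ h → h < nd X t → X (t + h) = 0 := by
    intro t h h1 h2
    rcases hX.zo (t + h) with h3 | h3
    · exact h3
    · exact absurd (show h ∈ {h : ℕ | 1 ≤ h ∧ X (t + h) = 1} from ⟨h1, h3⟩)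
        (Nat.notMem_of_lt_sInf h2)
  refine ⟨hmem, ?_, ?_⟩
  · intro t
    have e : nd X (t + Q) = nd X t := by
      unfold nd
      congr 1
      ext h
      have e2 : X (t + Q + h) = X (t + h) := by
        rw [← hX.per (t + h)]
        congr 1
        ring
      change (1 ≤ h ∧ X (t + Q + h) = 1) ↔ (1 ≤ h ∧ X (t + h) = 1)
      rw [e2]
    unfold nx
    rw [e]
  · intro t H
    obtain ⟨h1, h2⟩ := hmem t
    rcases le_or_gt (nd X t) H with h | h
    · have hs : ∑ h ∈ Icc 1 H, (-1 : ℝ) ^ h * (Pw X 1 h t * X (t + (h : ℤ))) = (-1) ^ nd X t := by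
        rw [Finset.sum_eq_single (nd X t)]
        · have hPw : Pw X 1 (nd X t) t = 1 := by
            unfold Pw
            apply Finset.prod_eq_one
            intro i hi
            rw [Finset.mem_Ioo] at hi
            rw [hlt t i hi.1 hi.2]
            ring
          rw [hPw, h2]
          ring
        · intro k hk hne'
          rw [Finset.mem_Icc] at hk
          rcases lt_or_gt_of_ne hne' with h3 | h3
          · rw [hlt t k hk.1 h3]
            ring
          · have hPw : Pw X 1 k t = 0 := by
              unfold Pw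
              apply Finset.prod_eq_zero (Finset.mem_Ioo.2 ⟨h1, h3⟩)
              rw [h2]
              ring
            rw [hPw]
            ring
        · intro h3
          exact absurd (Finset.mem_Icc.2 ⟨h1, h⟩) h3
      have hPc : Pc X 1 H t = 0 := by
        unfold Pc
        apply Finset.prod_eq_zero (Finset.mem_Icc.2 ⟨h1, h⟩)
        rw [h2]
        ring
      rw [hs, hPc]
      unfold nx
      rw [sub_self, abs_zero]
    · have hs : ∑ h ∈ Icc 1 H, (-1 : ℝ) ^ h * (Pw X 1 h t * X (t + (h : ℤ))) = 0 := by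
        apply Finset.sum_eq_zero
        intro k hk
        rw [Finset.mem_Icc] at hk
        rw [hlt t k hk.1 (lt_of_le_of_lt hk.2 h)]
        ring
      have hPc : Pc X 1 H t = 1 := by
        unfold Pc
        apply Finset.prod_eq_one
        intro k hk
        rw [Finset.mem_Icc] at hk
        rw [hlt t k hk.1 (lt_of_le_of_lt hk.2 h)]
        ring
      rw [hs, hPc]
      unfold nx
      rw [sub_zero, abs_pow, abs_neg, abs_one, one_pow]

end Pool.Agent.Helper69.TB
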